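import Pool.Agent.Lib_MP_6af485_kt.KSharp

/-!
# MP_6af485_co: the case `k = 3`

Every `C₄`-free zero-one `n × n` matrix `A` with at most `3 n` ones satisfies `perm(A) ^ 7 ≤ 24 ^ n`, for every `n`
(the inequality of the question for `k = 3`: `v_3 = 7`, `M_3 = 24`).  More generally, if `A` has `e ≥ 2 n` ones then
`perm(A) ^ 21 ≤ 27 ^ (e - 2 n) * 4 ^ e * 8 ^ n`, which is attained by block diagonal matrices whose blocks are
incidence matrices of the Fano plane (`7 × 7`) and of the hexagon (`3 × 3`).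
-/

set_option autoImplicit false

namespace Pool.Agent.Results.MP_6af485_co.SharpThree

open Finset Pool.Agent.CFree

theorem result :
    (∀ (n : ℕ) (A : Matrix (Fin n) (Fin n) ℕ), ZeroOne A → C4Free A → 2 * n ≤ ones A →
      A.permanent ^ 21 ≤ 27 ^ (ones A - 2 * n) * 4 ^ ones A * 8 ^ n) ∧
    (∀ a b : ℕ, ∃ A : Matrix (Fin (7 * a + 3 * b)) (Fin (7 * a + 3 * b)) ℕ, ZeroOne A ∧ C4Free A ∧
      ones A = 21 * a + 6 * b ∧
      A.permanent ^ 21 = 27 ^ (ones A - 2 * (7 * a + 3 * b)) * 4 ^ ones A * 8 ^ (7 * a + 3 * b)) ∧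
    (v 3 = 7 ∧ M 3 = 24) ∧ ∀ n : ℕ, 1 ≤ n → Ineq 3 n := by
  refine ⟨fun n A h01 h4 he => perm_kt A h01 h4 he, fun a b => ?_, ⟨v_three, M_three⟩, ?_⟩
  · obtain ⟨A, h1, h2, h3, -, h5⟩ := sharp_kt a b
    exact ⟨A, h1, h2, h3, h5⟩
  intro n _ A h01 h4 hones
  have h10 := perm_kt3 A h01 h4 hones
  rw [v_three, M_three]
  have h5 : ((A.permanent : ℝ)) ^ 7 ≤ ((24 : ℝ) ^ ((n : ℝ) / 7)) ^ 7 := by
    have e1 : ((24 : ℝ) ^ ((n : ℝ) / 7)) ^ 7 = 24 ^ n := by
      rw [← Real.rpow_natCast, ← Real.rpow_mul (by norm_num), ← Real.rpow_natCast]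
      congr 1
      push_cast
      ring
    rw [e1]
    exact_mod_cast h10
  have h6 := le_of_pow_le_pow_left₀ (by norm_num) (Real.rpow_nonneg (by norm_num) _) h5
  push_cast
  exact h6

end Pool.Agent.Results.MP_6af485_co.SharpThree
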